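import Pool.Agent.KS6_19.SW.RM

set_option autoImplicit false

namespace Pool.Agent.Results.MP_e1b2c2_nt.AllOddPrimes

open Finset

/-- The truncated sum `S(m)` of the problem: the sum over `0 ≤ k ≤ (m-1)/2` of
`(-1)^k (4k+1) (1/2)_k^5 / k!^5`, a rational number. The rising factorial `(1/2)_k` is
the value at `1/2` of Mathlib's `ascPochhammer`. -/
noncomputable def S (m : ℕ) : ℚ :=
  ∑ k ∈ range ((m - 1) / 2 + 1),
    (-1) ^ k * (4 * (k : ℚ) + 1) * ((ascPochhammer ℚ k).eval (1 / 2)) ^ 5 / (k.factorial : ℚ) ^ 5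

/-- `G` is Morita's `p`-adic gamma function: a continuous function on `ℤ_[p]` whose value at a
positive integer `n` is `(-1)^n` times the product of the integers `0 < j < n` prime to `p`. -/
def IsMoritaGamma (p : ℕ) [Fact p.Prime] (G : ℤ_[p] → ℤ_[p]) : Prop :=
  Continuous G ∧ ∀ n : ℕ, 1 ≤ n →
    G n = (-1) ^ n * ∏ j ∈ (Ioo 0 n).filter (fun j => ¬ p ∣ j), (j : ℤ_[p])

/-- Swisher's Dwork-type supercongruences for all odd primes and all odd indices.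

For `p` congruent to `1` modulo `4`, Morita's gamma function exists, is unique, and with `q = 1/4`
in `ℤ_[p]` the number `S(p n) + p Γ(q)^4 S(n)` lies in `(p n)^5 ℤ_[p]` for every odd `n`.

For `p` congruent to `3` modulo `4`, the number `S(p^2 n) - p^4 S(n)` lies in `p^8 n^5 ℤ_[p]` for
every odd `n`. -/
theorem result :
    (∀ (p : ℕ) [Fact p.Prime], p % 4 = 1 →
      ∃ G : ℤ_[p] → ℤ_[p], IsMoritaGamma p G ∧ (∀ G', IsMoritaGamma p G' → G' = G) ∧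
        ∃ q : ℤ_[p], 4 * q = 1 ∧ ∀ n : ℕ, n % 2 = 1 →
          ∃ z : ℤ_[p], ((S (p * n) : ℚ) : ℚ_[p]) +
            (p : ℚ_[p]) * ((G q : ℤ_[p]) : ℚ_[p]) ^ 4 * ((S n : ℚ) : ℚ_[p]) =
            ((p : ℚ_[p]) * (n : ℚ_[p])) ^ 5 * (z : ℚ_[p])) ∧
    (∀ (p : ℕ) [Fact p.Prime], p % 4 = 3 → ∀ n : ℕ, n % 2 = 1 →
      ∃ z : ℤ_[p], ((S (p ^ 2 * n) : ℚ) : ℚ_[p]) - (p : ℚ_[p]) ^ 4 * ((S n : ℚ) : ℚ_[p]) =
        (p : ℚ_[p]) ^ 8 * (n : ℚ_[p]) ^ 5 * (z : ℚ_[p])) := by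
  constructor
  · intro p hp hp4
    obtain ⟨G, hG⟩ := KS6_19.SW.exists_morita (p := p) (by omega)
    have hu : IsUnit (((4 : ℕ) : ℤ_[p])) := by
      apply KS6_19.SW.isUnit_natCast
      intro h
      have h5 : p ∣ 2 ^ 2 := by simpa using h
      have h7 := (Nat.prime_dvd_prime_iff_eq hp.out Nat.prime_two).mp (hp.out.dvd_of_dvd_pow h5)
      omega
    obtain ⟨u, hu'⟩ := hu
    have h4 : (4 : ℤ_[p]) * ((u⁻¹ : ℤ_[p]ˣ) : ℤ_[p]) = 1 := by
      have h4 : (4 : ℤ_[p]) = (u : ℤ_[p]) := by rw [hu']; norm_num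
      rw [h4, Units.mul_inv]
    exact ⟨G, hG, fun G' hG' => KS6_19.SW.morita_unique hG' hG, ((u⁻¹ : ℤ_[p]ˣ) : ℤ_[p]), h4,
      fun n hn => KS6_19.SW.main_odd hp4 hG _ h4 n hn⟩
  · intro p hp hp4 n hn
    rw [show p ^ 2 * n = p * (p * n) by ring]
    exact KS6_19.SW.main3 hp4 n hn

end Pool.Agent.Results.MP_e1b2c2_nt.AllOddPrimes
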